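import Pool.Agent.H.MP_96e181_an.DenseOrbit

/-!
# Dense orbits for atomless measures invariant under multiplication by `p`

Let `μ` be an atomless Borel probability measure on the circle which is invariant under
`x ↦ p x`.  Then `μ`-almost every point `x` has, for every integer `q ≥ 2` multiplicatively
independent of `p`, a dense orbit `{q ^ n x : n ≥ 0}`.
-/

open MeasureTheory

namespace Pool.Agent.H.MP_96e181_an.DenseOrbitsResult

/-- Let `p ≥ 2` and let `μ` be an atomless Borel probability measure on `ℝ/ℤ` invariant under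
`x ↦ p x`. For `μ`-almost every `x`, for every integer `q ≥ 2` with `log p / log q` irrational,
the orbit `{q ^ n x : n ≥ 0}` is dense in `ℝ/ℤ`. -/
theorem result :
    ∀ p : ℕ, 2 ≤ p → ∀ μ : Measure UnitAddCircle, IsProbabilityMeasure μ →
      (∀ x : UnitAddCircle, μ {x} = 0) →
      MeasurePreserving (fun x : UnitAddCircle => p • x) μ μ →
      ∀ᵐ x ∂μ, ∀ q : ℕ, 2 ≤ q → Irrational (Real.log (p : ℝ) / Real.log (q : ℝ)) →
        Dense (Set.range fun n : ℕ => q ^ n • x) := by
  intro p hp μ hμ hna hinv
  have : NullSingletonClass μ := ⟨hna⟩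
  rw [ae_all_iff]
  intro q
  by_cases hq : 2 ≤ q ∧ Irrational (Real.log (p : ℝ) / Real.log (q : ℝ))
  · filter_upwards [H.MP_96e181_an.ae_dense_orbit hp hq.1 hq.2 hinv] with x hx _ _
    exact hx
  · exact Filter.Eventually.of_forall fun x h1 h2 => absurd ⟨h1, h2⟩ hq

end Pool.Agent.H.MP_96e181_an.DenseOrbitsResult
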