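import Pool.Agent.H.MP_96e181_an.Translate

/-!
# Irrational translates and measures invariant under `p` and `q`

Let `p, q ≥ 2` be multiplicatively independent, let `μ` be a Borel probability measure on the
circle invariant under multiplication by `p`, let `ν` be one invariant under multiplication by
`p` and by `q`, and let `α` be irrational.  If the translate of `μ` by `α` is not singular with
respect to `ν`, then Lebesgue measure is absolutely continuous with respect to `μ` and to `ν`.
If the translate of `μ` by `α` is absolutely continuous with respect to `ν`, then `μ` is Lebesgue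
measure.
-/

open MeasureTheory

namespace Pool.Agent.H.MP_96e181_an.IrrationalTranslates

/-- Let `p, q ≥ 2` be integers with `log p / log q` irrational, let `μ` be a Borel probability
measure on `ℝ/ℤ` invariant under `x ↦ p x`, let `ν` be a Borel probability measure on `ℝ/ℤ`
invariant under `x ↦ p x` and `x ↦ q x`, and let `α` be an irrational number.
If the translate of `μ` by `α` and `ν` are not mutually singular, then Lebesgue measure is
absolutely continuous with respect to both `μ` and `ν`; and if the translate of `μ` by `α` is
absolutely continuous with respect to `ν`, then `μ` is Lebesgue measure. -/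
theorem result :
    ∀ p q : ℕ, 2 ≤ p → 2 ≤ q → Irrational (Real.log (p : ℝ) / Real.log (q : ℝ)) →
      ∀ μ ν : Measure UnitAddCircle, IsProbabilityMeasure μ → IsProbabilityMeasure ν →
        MeasurePreserving (fun x : UnitAddCircle => p • x) μ μ →
        MeasurePreserving (fun x : UnitAddCircle => p • x) ν ν →
        MeasurePreserving (fun x : UnitAddCircle => q • x) ν ν →
        ∀ α : ℝ, Irrational α →
          (¬ (μ.map (fun x : UnitAddCircle => x + (α : UnitAddCircle)) ⟂ₘ ν) →
            (volume : Measure UnitAddCircle) ≪ μ ∧ (volume : Measure UnitAddCircle) ≪ ν) ∧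
          (μ.map (fun x : UnitAddCircle => x + (α : UnitAddCircle)) ≪ ν →
            μ = (volume : Measure UnitAddCircle)) := by
  intro p q hp hq h μ ν hμ hν hμp hνp hνq α hα
  have hα' : ∀ n : ℕ, 0 < n → n • (α : UnitAddCircle) ≠ 0 := by
    intro n hn h0
    rw [← AddCircle.coe_nsmul, AddCircle.coe_eq_zero_iff] at h0
    obtain ⟨m, hm⟩ := h0
    have h1 : (n : ℝ) * α = m := by
      simpa [nsmul_eq_mul, eq_comm] using hm
    exact (hα.natCast_mul hn.ne').ne_int m h1
  exact ⟨translate_main hp hq h hμp hνp hνq hα',
    _root_.Pool.Agent.H.MP_96e181_an.translate_eq hp hq h hμp hνp hνq hα'⟩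

end Pool.Agent.H.MP_96e181_an.IrrationalTranslates
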